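import Pool.Agent.H36.QI.Quad

/-! # Quadratic images of intervals against arbitrary sets

Let `A` be the image of an interval of at most `p` integers under a quadratic polynomial modulo `p`,
and let `B` be any set of residues with `|B| ≥ p ^ ε` and `|A| ^ 2 |B| ≥ p ^ (1 + ε)`.  Then the
bound of the Paley graph conjecture holds for `A` and `B`, even with absolute values inside the sum
over `B`.  The same bound holds when the sum over `A` is replaced by the sum over the interval.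

The proof is a shifting argument: after completing the square the sums over short inner intervals
are sums of `χ ((x + v) ^ 2 + y)`, and their moments over all pairs `(x, y)` are estimated with the
bound of Weil over the field with `p` elements when `- y` is a square, and over the field with
`p ^ 2` elements otherwise. -/

set_option autoImplicit false

namespace Pool.Agent.Results.MP_f6e9a2_nt.QuadraticImages

open Finset

theorem result (ε : ℝ) (hε : 0 < ε) : ∃ δ : ℝ, 0 < δ ∧ ∃ p₀ : ℕ, ∀ p : ℕ, p₀ ≤ p →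
    ∀ [Fact p.Prime] (χ : MulChar (ZMod p) ℂ), χ ≠ 1 →
    ∀ (α β γ : ZMod p), α ≠ 0 → ∀ (M : ℤ) (N : ℕ), N ≤ p →
    ∀ (A B : Finset (ZMod p)),
    A = (Ioc M (M + N)).image (fun n : ℤ => α * (n : ZMod p) ^ 2 + β * (n : ZMod p) + γ) →
    (p : ℝ) ^ ε ≤ B.card →
    ((p : ℝ) ^ (1 + ε) ≤ (A.card : ℝ) ^ 2 * B.card →
      ∑ b ∈ B, ‖∑ a ∈ A, χ (a + b)‖ ≤ (p : ℝ) ^ (-δ) * (A.card * B.card) ∧
      ‖∑ a ∈ A, ∑ b ∈ B, χ (a + b)‖ ≤ (p : ℝ) ^ (-δ) * (A.card * B.card)) ∧
    ((p : ℝ) ^ (1 + ε) ≤ (N : ℝ) ^ 2 * B.card →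
      ∑ b ∈ B, ‖∑ n ∈ Ioc M (M + N), χ (α * (n : ZMod p) ^ 2 + β * (n : ZMod p) + γ + b)‖ ≤
        (p : ℝ) ^ (-δ) * (N * B.card)) := by
  obtain ⟨δ, hδ, p₀, h0⟩ := Pool.Agent.H36.QI.quad ε hε
  refine ⟨δ, hδ, max p₀ 3, ?_⟩
  intro p hp hfact χ hχ α β γ hα M N hN A B hA hB
  have hp0 : p₀ ≤ p := (le_max_left _ _).trans hp
  refine ⟨?_, fun hNB => h0 p hp0 χ hχ α β γ hα M N B hB hNB⟩
  intro hAB
  obtain ⟨M', N', hN', him, hinj⟩ := Pool.Agent.H36.QI.shrink
    (fun n : ℤ => α * (n : ZMod p) ^ 2 + β * (n : ZMod p) + γ) (-(β / α))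
    (fun n m => Pool.Agent.H36.QI.quad_eq α β γ hα n m) N M hN
  rw [← hA] at him
  have hcard : A.card = N' := by
    rw [← him, card_image_of_injOn hinj, Int.card_Ioc]
    simp
  have hsum : ∀ b : ZMod p, ∑ a ∈ A, χ (a + b) =
      ∑ n ∈ Ioc M' (M' + N'), χ (α * (n : ZMod p) ^ 2 + β * (n : ZMod p) + γ + b) := by
    intro b
    rw [← him, sum_image hinj]
  have h1 : ∑ b ∈ B, ‖∑ a ∈ A, χ (a + b)‖ ≤ (p : ℝ) ^ (-δ) * (A.card * B.card) := by
    have h2 := h0 p hp0 χ hχ α β γ hα M' N' B hB (by rw [← hcard]; exact hAB)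
    rw [hcard]
    refine le_trans (le_of_eq ?_) h2
    exact sum_congr rfl fun b _ => by rw [hsum b]
  refine ⟨h1, ?_⟩
  rw [sum_comm]
  exact (norm_sum_le _ _).trans h1

end Pool.Agent.Results.MP_f6e9a2_nt.QuadraticImages
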